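import Mathlib

/-!
A cocycle with values in the rational 2-adic Tate module is a coboundary if the classes of 2-power order
vanish and the group of the invariants is uniquely 2-divisible.
-/

set_option autoImplicit false
set_option linter.unusedSectionVars false

namespace Pool.Agent.N844.QF

section abs

variable {G A : Type} [Group G] [TopologicalSpace G] [CompactSpace G] [AddCommGroup A]
  (ρ : G → A →+ A)

/-- the rational Tate module as a set of sequences -/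
def AV (x : ℕ → A) : Prop := ∀ n, 2 • x (n + 1) = x n ∧ ∃ m : ℕ, 2 ^ m • x n = 0

lemma two_pow_zero {P : A} (hinj : ∀ P : A, (∀ σ, ρ σ P = P) → 2 • P = 0 → P = 0)
    (h : ∀ σ, ρ σ P = P) : ∀ m : ℕ, 2 ^ m • P = 0 → P = 0 := by
  intro m
  induction m with
  | zero => intro h0; simpa using h0
  | succ m ih =>
    intro h0
    apply ih
    apply hinj _ (fun σ => by rw [map_nsmul, h σ])
    rw [smul_smul, ← pow_succ']
    exact h0

lemma two_pow_div (hdiv : ∀ P : A, (∀ σ, ρ σ P = P) → ∃ Q : A, (∀ σ, ρ σ Q = Q) ∧ 2 • Q = P) :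
    ∀ (m : ℕ) (P : A), (∀ σ, ρ σ P = P) → ∃ Q : A, (∀ σ, ρ σ Q = Q) ∧ 2 ^ m • Q = P := by
  intro m
  induction m with
  | zero => intro P hP; exact ⟨P, hP, by simp⟩
  | succ m ih =>
    intro P hP
    obtain ⟨Q, hQ, h1⟩ := ih P hP
    obtain ⟨R, hR, h2⟩ := hdiv Q hQ
    exact ⟨R, hR, by rw [pow_succ, mul_smul, h2, h1]⟩

theorem abs_h1f (L : (G → A) → Prop)
    (hsha : ∀ f : G → A, IsLocallyConstant f → (∀ σ τ, f (σ * τ) = f σ + ρ σ (f τ)) → L f →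
      ∀ m : ℕ, (∀ σ, 2 ^ m • f σ = 0) → ∃ P, ∀ σ, f σ = ρ σ P - P)
    (hinj : ∀ P : A, (∀ σ, ρ σ P = P) → 2 • P = 0 → P = 0)
    (hdiv : ∀ P : A, (∀ σ, ρ σ P = P) → ∃ Q : A, (∀ σ, ρ σ Q = Q) ∧ 2 • Q = P)
    (c : G → ℕ → A) (h1 : ∀ n, IsLocallyConstant fun σ => c σ n) (h2 : ∀ σ, AV (c σ))
    (h3 : ∀ σ τ n, c (σ * τ) n = c σ n + ρ σ (c τ n)) (h4 : ∀ n, L fun σ => c σ n) :
    ∃ x : ℕ → A, AV x ∧ ∀ σ n, c σ n = ρ σ (x n) - x n := by
  classical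
  have hexp : ∀ n, ∃ m : ℕ, ∀ σ, 2 ^ m • c σ n = 0 := by
    intro n
    have hfin : (Set.range fun σ => c σ n).Finite := (h1 n).range_finite
    have h5 : ∀ y ∈ hfin.toFinset, ∃ m : ℕ, 2 ^ m • y = 0 := by
      intro y hy
      obtain ⟨σ, rfl⟩ := hfin.mem_toFinset.1 hy
      exact ((h2 σ) n).2
    choose! m hm using h5
    refine ⟨hfin.toFinset.sup m, fun σ => ?_⟩
    have h6 : c σ n ∈ hfin.toFinset := hfin.mem_toFinset.2 ⟨σ, rfl⟩
    obtain ⟨k, hk⟩ := Nat.exists_eq_add_of_le (Finset.le_sup (f := m) h6)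
    rw [hk, pow_add, mul_comm, mul_smul, hm _ h6, smul_zero]
  have key : ∀ n, ∃ P : A, (∀ σ, c σ n = ρ σ P - P) ∧ ∃ m : ℕ, 2 ^ m • P = 0 := by
    intro n
    obtain ⟨m, hm⟩ := hexp n
    obtain ⟨P, hP⟩ := hsha (fun σ => c σ n) (h1 n) (fun σ τ => h3 σ τ n) (h4 n) m hm
    have hfix : ∀ σ, ρ σ (2 ^ m • P) = 2 ^ m • P := by
      intro σ
      have h5 := hm σ
      rw [hP σ, smul_sub] at h5
      rw [map_nsmul]
      exact sub_eq_zero.1 h5
    obtain ⟨Q, hQ, h6⟩ := two_pow_div ρ hdiv m _ hfix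
    refine ⟨P - Q, fun σ => ?_, m, ?_⟩
    · rw [map_sub, hQ σ, hP σ]
      abel
    · rw [smul_sub, h6, sub_self]
  choose x hx hx2 using key
  refine ⟨x, fun n => ⟨?_, hx2 n⟩, fun σ n => hx n σ⟩
  have hfix : ∀ σ, ρ σ (2 • x (n + 1) - x n) = 2 • x (n + 1) - x n := by
    intro σ
    have h5 := ((h2 σ) n).1
    rw [hx (n + 1) σ, hx n σ, smul_sub] at h5
    rw [map_sub, map_nsmul]
    have e : 2 • (ρ σ) (x (n + 1)) - (ρ σ) (x n) - (2 • x (n + 1) - x n) =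
        (2 • (ρ σ) (x (n + 1)) - 2 • x (n + 1)) - ((ρ σ) (x n) - x n) := by abel
    rw [← sub_eq_zero, e, h5, sub_self]
  obtain ⟨m, hm⟩ := hx2 (n + 1)
  obtain ⟨m', hm'⟩ := hx2 n
  refine sub_eq_zero.1 (two_pow_zero ρ hinj hfix (m + m') ?_)
  rw [smul_sub, smul_smul, mul_comm (2 ^ (m + m')) 2, mul_smul, pow_add, mul_comm (2 ^ m) (2 ^ m'),
    mul_smul, hm, smul_zero, smul_zero, mul_comm (2 ^ m') (2 ^ m), mul_smul, hm', smul_zero,
    sub_zero]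

end abs

end Pool.Agent.N844.QF
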