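import Pool.Agent.N352.JB.All
import Pool.Agent.N874.Jac.Def
import Pool.Agent.N844.QF.Abs

/-!
The Bloch-Kato Selmer group of `V_2 J` is zero if `J(K)` is uniquely 2-divisible and the 2-primary part of
the Tate-Shafarevich group is zero; the real places give no condition.
-/

set_option autoImplicit false
set_option linter.all false

open Polynomial IsDedekindDomain
open scoped Classical

namespace Pool.Agent.N844.QF

open Pool.Agent.Y160.SE
open Pool.Agent.TH115.GD (incl rs ak exists_restrict)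
open Pool.Agent.N106.JB (ad mu ad_mapJ ACoc ACob ATriv)

section real

/-- the automorphisms of the separable closure of `ℝ` -/
theorem real_aut : ∃ s : SeparableClosure ℝ ≃ₐ[ℝ] SeparableClosure ℝ, (∀ x, s (s x) = x) ∧
    ∀ τ : SeparableClosure ℝ ≃ₐ[ℝ] SeparableClosure ℝ, τ = 1 ∨ τ = s := by
  haveI : IsSepClosure ℝ ℂ := ⟨inferInstance, inferInstance⟩
  let e : SeparableClosure ℝ ≃ₐ[ℝ] ℂ := IsSepClosure.equiv ℝ (SeparableClosure ℝ) ℂ
  refine ⟨(e.trans Complex.conjAe).trans e.symm, fun x => ?_, fun τ => ?_⟩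
  · simp
  · have h := Complex.real_algHom_eq_id_or_conj
      (((e.symm.trans τ).trans e : ℂ ≃ₐ[ℝ] ℂ) : ℂ →ₐ[ℝ] ℂ)
    rcases h with h | h
    · left
      refine AlgEquiv.ext fun x => ?_
      have h1 := DFunLike.congr_fun h (e x)
      simp only [AlgEquiv.coe_toAlgHom, AlgEquiv.trans_apply, AlgEquiv.symm_apply_apply,
        AlgHom.coe_id, id] at h1
      have h2 := e.injective h1
      rw [h2]
      rfl
    · right
      refine AlgEquiv.ext fun x => ?_
      have h1 := DFunLike.congr_fun h (e x)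
      simp only [AlgEquiv.coe_toAlgHom, AlgEquiv.trans_apply, AlgEquiv.symm_apply_apply] at h1
      show τ x = e.symm (Complex.conjAe (e x))
      rw [← h1, AlgEquiv.symm_apply_apply]

/-- a cocycle which is divisible by two is trivial over `ℝ` -/
theorem real_triv {K : Type} [Field K] [Algebra K ℝ] {f : K[X]}
    (c d : (SeparableClosure K ≃ₐ[K] SeparableClosure K) → Jac 2 f (SeparableClosure K))
    (h : ∀ σ, 2 • d σ = c σ) (h3 : ∀ σ τ, d (σ * τ) = d σ + jm 2 f (ak σ) (d τ)) : ATriv ℝ c := by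
  obtain ⟨s, hs, hτ⟩ := real_aut
  let ι : SeparableClosure K →ₐ[K] SeparableClosure ℝ := IsSepClosed.lift
  obtain ⟨σ₀, hσ₀⟩ := exists_restrict (F := K) (L := ℝ) ι s
  have hid : ∀ x : Jac 2 f (SeparableClosure K), jm 2 f (ak (1 : SeparableClosure K ≃ₐ[K]
      SeparableClosure K)) x = x := fun x => jm_id x
  have d1 : d 1 = 0 := by
    have h4 := h3 1 1
    rw [mul_one, hid] at h4
    exact left_eq_add.1 h4
  have hinv : σ₀ * σ₀ = 1 := by
    refine AlgEquiv.ext fun x => ?_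
    apply ι.injective
    show ι (σ₀ (σ₀ x)) = ι x
    rw [← hσ₀, ← hσ₀, hs]
  have hd : jm 2 f (ak σ₀) (d σ₀) = - d σ₀ := by
    have h4 := h3 σ₀ σ₀
    rw [hinv, d1] at h4
    exact (neg_eq_of_add_eq_zero_right h4.symm).symm
  refine ⟨ι, -(jm 2 f ι (d σ₀)), fun τ σ hx => ?_⟩
  rcases hτ τ with rfl | rfl
  · have e1 : σ = 1 := by
      refine AlgEquiv.ext fun x => ?_
      apply ι.injective
      exact (hx x).symm
    have e2 : jm 2 f (rs K (1 : SeparableClosure ℝ ≃ₐ[ℝ] SeparableClosure ℝ)) (-(jm 2 f ι (d σ₀))) =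
        -(jm 2 f ι (d σ₀)) := jm_id _
    rw [e1, ← h, d1, smul_zero, map_zero, e2, sub_self]
  · have e1 : σ = σ₀ := by
      refine AlgEquiv.ext fun x => ?_
      exact ι.injective ((hx x).symm.trans (hσ₀ x))
    have e2 : (rs K τ).comp ι = ι.comp (ak σ₀) := AlgHom.ext fun x => hσ₀ x
    rw [e1, ← h, map_neg, jm_jm, e2, ← jm_jm, hd, map_neg, map_nsmul, two_nsmul]
    abel

end real

section h1f

variable {K : Type} [Field K] {F : K[X]}

theorem h1f_add (h2 : (2 : K) ≠ 0) (hm : F.Monic) (hs : F.Separable) (ho : Odd F.natDegree)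
    (hU : Function.Bijective fun P : Pool.Agent.Y713.Jac.J 2 F K => P ^ 2)
    (L : ((SeparableClosure K ≃ₐ[K] SeparableClosure K) → Jac 2 F (SeparableClosure K)) → Prop)
    (hS : ∀ c : (SeparableClosure K ≃ₐ[K] SeparableClosure K) → Jac 2 F (SeparableClosure K),
      ACoc c → L c → ∀ m : ℕ, (∀ σ, 2 ^ m • c σ = 0) → ACob c)
    (c : (SeparableClosure K ≃ₐ[K] SeparableClosure K) → ℕ → Jac 2 F (SeparableClosure K))
    (h1 : ∀ n, IsLocallyConstant fun σ => c σ n) (h2' : ∀ σ, AV (c σ))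
    (h3 : ∀ σ τ n, c (σ * τ) n = c σ n + jm 2 F (ak σ) (c τ n)) (h4 : ∀ n, L fun σ => c σ n) :
    ∃ x : ℕ → Jac 2 F (SeparableClosure K), AV x ∧ ∀ σ n, c σ n = jm 2 F (ak σ) (x n) - x n := by
  have H := hyps
  have hg := Pool.Agent.N106.JB.good2 h2 hm hs ho
  have hinj := Pool.Agent.N655.JB.inj K (SeparableClosure K) F hg
  have hU1 : ∀ P : Jac 2 F K, 2 • P = 0 → P = 0 := by
    intro P hP
    have e : (fun P : Pool.Agent.Y713.Jac.J 2 F K => P ^ 2) (mu P) =
        (fun P : Pool.Agent.Y713.Jac.J 2 F K => P ^ 2) (mu (0 : Jac 2 F K)) := by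
      show ad (mu P ^ 2) = ad (mu (0 : Jac 2 F K) ^ 2)
      show 2 • P = 2 • (0 : Jac 2 F K)
      rw [hP, smul_zero]
    exact hU.1 e
  have hU2 : ∀ P : Jac 2 F K, ∃ Q : Jac 2 F K, 2 • Q = P := by
    intro P
    obtain ⟨Q, hQ⟩ := hU.2 (mu P)
    exact ⟨ad Q, hQ⟩
  have hfix : ∀ (x : Jac 2 F K) (σ : SeparableClosure K ≃ₐ[K] SeparableClosure K),
      jm 2 F (ak σ) (jm 2 F (incl K K (SeparableClosure K)) x) =
        jm 2 F (incl K K (SeparableClosure K)) x := by
    intro x σ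
    rw [jm_jm]
    congr 1
    congr 1
    exact AlgHom.ext fun y => σ.commutes y
  have hdesc : ∀ P : Jac 2 F (SeparableClosure K), (∀ σ, jm 2 F (ak σ) P = P) →
      ∃ Q : Jac 2 F K, jm 2 F (incl K K (SeparableClosure K)) Q = P := by
    intro P hP
    exact fixed_class (E := K) H hg P fun τ => by
      have e1 : (rs K τ : SeparableClosure K →ₐ[K] SeparableClosure K) = ak τ :=
        AlgHom.ext fun x => rfl
      rw [e1, hP]
  refine abs_h1f (fun σ => jm 2 F (ak σ)) L ?_ ?_ ?_ c h1 h2' h3 h4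
  · intro f hf1 hf2 hf3 m hf4
    exact hS f ⟨hf1, hf2⟩ hf3 m hf4
  · intro P hP hP2
    obtain ⟨Q, rfl⟩ := hdesc P hP
    have h5 : Q = 0 := by
      apply hU1
      apply hinj
      rw [map_nsmul, hP2, map_zero]
    rw [h5, map_zero]
  · intro P hP
    obtain ⟨Q, rfl⟩ := hdesc P hP
    obtain ⟨R, rfl⟩ := hU2 Q
    exact ⟨jm 2 F (incl K K (SeparableClosure K)) R, hfix R, by rw [map_nsmul]⟩

end h1f

section main

open Pool.Agent.N874.Jac (J mapJ Gal TrivialOver TrivialAtPrimes TrivialAtReals UniquelyTwoDivisible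
  ShaTwoTrivialReal Cocycle Coboundary power)

variable {K : Type} [Field K] {F : K[X]}

/-- from the additive to the multiplicative notation -/
theorem triv_mu {E : Type} [Field E] [Algebra K E]
    {c : (SeparableClosure K ≃ₐ[K] SeparableClosure K) → Jac 2 F (SeparableClosure K)}
    (h : ATriv E c) : TrivialOver (F := F) E fun σ => mu (c σ) := by
  obtain ⟨ι, P, hP⟩ := h
  refine ⟨ι, mu P, fun τ σ hx => ?_⟩
  refine Pool.Agent.N106.JB.ad_inj ?_
  exact ((ad_mapJ ι (mu (c σ))).trans (hP τ σ hx)).trans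
    (congrArg (· - P) (ad_mapJ (rs K τ) (mu P)).symm)

/-- the vanishing of the Bloch-Kato Selmer group, in multiplicative notation -/
theorem h1f_zero (h2 : (2 : K) ≠ 0) (hm : F.Monic) (hs : F.Separable) (ho : Odd F.natDegree)
    (R : Type) [CommRing R] [IsDedekindDomain R] [Algebra R K] [IsFractionRing R K]
    (hU : UniquelyTwoDivisible F) (hS : ShaTwoTrivialReal F R)
    (c : Gal K → ℕ → J F (SeparableClosure K))
    (h1 : ∀ n, IsLocallyConstant fun σ => c σ n)
    (h2' : ∀ σ n, c σ (n + 1) ^ 2 = c σ n ∧ ∃ m : ℕ, c σ n ^ 2 ^ m = 1)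
    (h3 : ∀ σ τ n, c (σ * τ) n = c σ n * mapJ F σ.toAlgHom (c τ n))
    (h4 : ∀ (v : HeightOneSpectrum R) (n : ℕ), TrivialOver (v.adicCompletion K) fun σ => c σ n) :
    ∃ x : ℕ → J F (SeparableClosure K), (∀ n, x (n + 1) ^ 2 = x n ∧ ∃ m : ℕ, x n ^ 2 ^ m = 1) ∧
      ∀ σ n, c σ n = mapJ F σ.toAlgHom (x n) / x n := by
  have h3' : ∀ (σ τ : SeparableClosure K ≃ₐ[K] SeparableClosure K) (n : ℕ),
      (ad (c (σ * τ) n : Pool.Agent.Y713.Jac.J 2 F _) : Jac 2 F (SeparableClosure K)) =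
        ad (c σ n : Pool.Agent.Y713.Jac.J 2 F _) +
          jm 2 F (ak σ) (ad (c τ n : Pool.Agent.Y713.Jac.J 2 F _)) := by
    intro σ τ n
    refine (congrArg ad (h3 σ τ n)).trans ?_
    exact congrArg (ad (c σ n : Pool.Agent.Y713.Jac.J 2 F _) + ·)
      (ad_mapJ (ak σ) (c τ n : Pool.Agent.Y713.Jac.J 2 F _))
  obtain ⟨x, hx1, hx2⟩ := h1f_add (F := F) h2 hm hs ho hU
    (fun c => (∀ v : HeightOneSpectrum R, ATriv (v.adicCompletion K) c) ∧
      ∀ ρ : K →+* ℝ, letI := ρ.toAlgebra; ATriv ℝ c)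
    (fun c hc hL m hm => by
      have h5 : Coboundary (F := F) (fun σ => (mu (c σ) : Pool.Agent.Y713.Jac.J 2 F _)) := by
        refine hS _ m ?_ ?_ ?_ ?_
        · refine ⟨hc.1, fun σ τ => ?_⟩
          refine Pool.Agent.N106.JB.ad_inj ?_
          refine (hc.2 σ τ).trans ?_
          exact congrArg (c σ + ·) (ad_mapJ (ak σ) (mu (c τ))).symm
        · exact fun v => triv_mu (hL.1 v)
        · intro ρ
          letI := ρ.toAlgebra
          exact triv_mu (hL.2 ρ)
        · refine ⟨1, fun σ => ?_⟩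
          refine Pool.Agent.N106.JB.ad_inj ?_
          refine (hm σ).trans ?_
          have e : mapJ F σ.toAlgHom (1 : J F (SeparableClosure K)) / 1 = 1 := by
            rw [map_one, div_one]
          exact (congrArg (fun z : Pool.Agent.Y713.Jac.J 2 F (SeparableClosure K) => ad z) e).symm
      exact Pool.Agent.N106.JB.acob_iff.1 h5)
    (fun σ n => (ad (c σ n : Pool.Agent.Y713.Jac.J 2 F _))) (fun n => (h1 n).comp _)
    (fun σ n => (h2' σ n)) h3' (fun n => ⟨fun v => Pool.Agent.N106.JB.atriv (h4 v n), fun ρ => by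
      letI := ρ.toAlgebra
      exact real_triv _ (fun σ => ad (c σ (n + 1) : Pool.Agent.Y713.Jac.J 2 F _))
        (fun σ => (h2' σ n).1) (fun σ τ => h3' σ τ (n + 1))⟩)
  refine ⟨fun n => mu (x n), fun n => (hx1 n), fun σ n => ?_⟩
  refine Pool.Agent.N106.JB.ad_inj ?_
  refine (hx2 σ n).trans ?_
  exact congrArg (· - x n) (ad_mapJ (ak σ) (mu (x n))).symm

end main

end Pool.Agent.N844.QF
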