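import Pool.Agent.N844.QH.Gen
import Pool.Agent.H82R3.EK.FF

/-!
Pencils of quadrics in `P^(2g+1)` with the discriminant `z F(x, z)`, `F` the homogeneous form of a monic
polynomial `f` of degree `2 g + 1`: smoothness and the number of points of the base locus.
-/

set_option autoImplicit false

namespace Pool.Agent.N844.QF

open Finset Matrix Polynomial
open scoped LinearAlgebra.Projectivization
open Pool.Agent.N844.QP hiding ap
open Pool.Agent.N844.QH

/-- `x ^ (2 g + 1) + a_(2 g - 1) x ^ (2 g - 1) z ^ 2 + ... + a_0 z ^ (2 g + 1)` -/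
def hom {g : ℕ} (a : Fin (2 * g) → ℤ) (x z : ℤ) : ℤ :=
  x ^ (2 * g + 1) + ∑ i : Fin (2 * g), a i * x ^ (i : ℕ) * z ^ (2 * g + 1 - (i : ℕ))

/-- `x ^ (2 g + 1) + a_(2 g - 1) x ^ (2 g - 1) + ... + a_0` -/
noncomputable def po {g : ℕ} (a : Fin (2 * g) → ℤ) : ℤ[X] :=
  X ^ (2 * g + 1) + ∑ i : Fin (2 * g), C (a i) * X ^ (i : ℕ)

/-- the reversed polynomial -/
noncomputable def ro {g : ℕ} (a : Fin (2 * g) → ℤ) : ℤ[X] :=
  1 + ∑ i : Fin (2 * g), C (a i) * X ^ (2 * g + 1 - (i : ℕ))

lemma po_eval {g : ℕ} (a : Fin (2 * g) → ℤ) (x : ℤ) : (po a).eval x = hom a x 1 := by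
  unfold po hom
  rw [eval_add, eval_pow, eval_X, eval_finsetSum]
  congr 1
  refine Finset.sum_congr rfl fun i _ => ?_
  rw [eval_mul, eval_C, eval_pow, eval_X, one_pow, mul_one]

lemma ro_eval {g : ℕ} (a : Fin (2 * g) → ℤ) (x : ℤ) : (ro a).eval x = hom a 1 x := by
  unfold ro hom
  rw [eval_add, eval_one, one_pow, eval_finsetSum]
  congr 1
  refine Finset.sum_congr rfl fun i _ => ?_
  rw [eval_mul, eval_C, eval_pow, eval_X, one_pow, mul_one]

lemma ro_eval_zero {g : ℕ} (a : Fin (2 * g) → ℤ) {k : Type*} [Field k] :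
    ((ro a).map (Int.castRingHom k)).eval 0 = 1 := by
  have h1 : (ro a).eval 0 = 1 := by
    rw [ro_eval]
    unfold hom
    rw [one_pow, add_eq_left]
    refine Finset.sum_eq_zero fun i _ => ?_
    rw [zero_pow (by have := i.2; omega), mul_zero]
  have h2 : (0 : k) = (Int.castRingHom k) 0 := by simp
  rw [h2, eval_map, eval₂_hom, h1]
  simp

/-- the integral pencils with discriminant `m ^ 2 z F(x, z)` -/
structure IsPen {g : ℕ} (a : Fin (2 * g) → ℤ) (m : ℤ)
    (A B : Matrix (Fin (2 * g + 2)) (Fin (2 * g + 2)) ℤ) : Prop where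
  symA : A.IsSymm
  symB : B.IsSymm
  disc : ∀ x z : ℤ, (-1) ^ (g + 1) * (x • A - z • B).det = m ^ 2 * (z * hom a x z)

section pencil

variable {g : ℕ} {a : Fin (2 * g) → ℤ} {m : ℤ} {A B : Matrix (Fin (2 * g + 2)) (Fin (2 * g + 2)) ℤ}

lemma IsPen.dp1 (h : IsPen a m A B) : C ((-1) ^ (g + 1) : ℤ) * dp A B = C (m ^ 2) * po a := by
  apply Polynomial.funext
  intro x
  have h1 := h.disc x 1
  rw [one_smul] at h1
  rw [eval_mul, eval_C, dp_eval, eval_mul, eval_C, po_eval, h1, one_mul]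

lemma IsPen.dp2 (h : IsPen a m A B) : C ((-1) ^ (g + 1) : ℤ) * dp B A = C (m ^ 2) * (X * ro a) := by
  apply Polynomial.funext
  intro x
  have h1 := h.disc 1 x
  rw [one_smul] at h1
  have e : x • B - A = -(A - x • B) := by rw [neg_sub]
  have he : Even (2 * g + 2) := ⟨g + 1, by ring⟩
  rw [eval_mul, eval_C, dp_eval, eval_mul, eval_C, eval_mul, eval_X, ro_eval, e, det_neg,
    Fintype.card_fin, he.neg_one_pow, one_mul, h1]

lemma IsPen.detA (h : IsPen a m A B) : A.det = 0 := by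
  have h1 := h.disc 1 0
  rw [one_smul, zero_smul, sub_zero, zero_mul, mul_zero] at h1
  exact (mul_eq_zero.1 h1).resolve_left (pow_ne_zero _ (by norm_num))

variable {k : Type*} [Field k]

lemma IsPen.dpk1 (h : IsPen a m A B) : C ((-1) ^ (g + 1) : k) *
    dp (A.map (Int.castRingHom k)) (B.map (Int.castRingHom k)) =
      C ((m : k) ^ 2) * (po a).map (Int.castRingHom k) := by
  have h1 := congrArg (Polynomial.map (Int.castRingHom k)) h.dp1
  rw [Polynomial.map_mul, Polynomial.map_mul, map_C, map_C] at h1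
  rw [dp_map]
  simpa using h1

lemma IsPen.dpk2 (h : IsPen a m A B) : C ((-1) ^ (g + 1) : k) *
    dp (B.map (Int.castRingHom k)) (A.map (Int.castRingHom k)) =
      C ((m : k) ^ 2) * (X * (ro a).map (Int.castRingHom k)) := by
  have h1 := congrArg (Polynomial.map (Int.castRingHom k)) h.dp2
  rw [Polynomial.map_mul, Polynomial.map_mul, Polynomial.map_mul, map_C, map_C, map_X] at h1
  rw [dp_map]
  simpa using h1

lemma IsPen.detk (h : IsPen a m A B) : (A.map (Int.castRingHom k)).det = 0 := by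
  have e : (A.map (Int.castRingHom k)).det = (Int.castRingHom k) A.det := by
    rw [RingHom.map_det]
    rfl
  rw [e, h.detA, map_zero]

lemma IsPen.ev (h : IsPen a m A B) (x : k) : (-1) ^ (g + 1) *
    (dp (A.map (Int.castRingHom k)) (B.map (Int.castRingHom k))).eval x =
      (m : k) ^ 2 * ((po a).map (Int.castRingHom k)).eval x := by
  have h1 := congrArg (Polynomial.eval x) (h.dpk1 (k := k))
  rwa [eval_mul, eval_C, eval_mul, eval_C] at h1

lemma IsPen.hf (h : IsPen a m A B) (hm : (m : k) ≠ 0)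
    (hs : ((po a).map (Int.castRingHom k)).Separable) (x : k)
    (hx : (dp (A.map (Int.castRingHom k)) (B.map (Int.castRingHom k))).eval x = 0) :
    (dp (A.map (Int.castRingHom k)) (B.map (Int.castRingHom k))).derivative.eval x ≠ 0 := by
  have hm2 : (m : k) ^ 2 ≠ 0 := pow_ne_zero 2 hm
  have h1 := h.ev x
  rw [hx, mul_zero] at h1
  have h2 := (mul_eq_zero.1 h1.symm).resolve_left hm2
  have h3 : ((po a).map (Int.castRingHom k)).derivative.eval x ≠ 0 := by
    have := hs.aeval_derivative_ne_zero (x := x) (by rw [coe_aeval_eq_eval]; exact h2)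
    rwa [coe_aeval_eq_eval] at this
  have h4 := congrArg (fun p => (derivative p).eval x) (h.dpk1 (k := k))
  simp only [derivative_C_mul, eval_mul, eval_C] at h4
  intro h0
  rw [h0, mul_zero] at h4
  exact mul_ne_zero hm2 h3 h4.symm

lemma IsPen.h0 (h : IsPen a m A B) (hm : (m : k) ≠ 0) :
    (dp (B.map (Int.castRingHom k)) (A.map (Int.castRingHom k))).derivative.eval 0 ≠ 0 := by
  have hm2 : (m : k) ^ 2 ≠ 0 := pow_ne_zero 2 hm
  have h4 := congrArg (fun p => (derivative p).eval 0) (h.dpk2 (k := k))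
  beta_reduce at h4
  rw [derivative_C_mul, derivative_C_mul, derivative_mul, derivative_X, one_mul, eval_mul, eval_C,
    eval_mul, eval_C, eval_add, ro_eval_zero, eval_mul, eval_X, zero_mul, add_zero, mul_one] at h4
  intro h0
  rw [h0, mul_zero] at h4
  exact hm2 h4.symm

/-- smoothness -/
theorem IsPen.smooth (h : IsPen a m A B) (hm : (m : k) ≠ 0)
    (hs : ((po a).map (Int.castRingHom k)).Separable)
    {y : Fin (2 * g + 2) → k} (hy : y ≠ 0) (h6 : qf (A.map (Int.castRingHom k)) y = 0)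
    (h7 : qf (B.map (Int.castRingHom k)) y = 0) :
    LinearIndependent k ![A.map (Int.castRingHom k) *ᵥ y, B.map (Int.castRingHom k) *ᵥ y] :=
  smooth' (h.symA.map _) (h.symB.map _) (fun _ => h.h0 hm) (h.hf hm hs) hy h6 h7

end pencil

/-- the number of points -/
theorem IsPen.num {g : ℕ} (hg : 1 ≤ g) {a : Fin (2 * g) → ℤ} {m : ℤ}
    {A B : Matrix (Fin (2 * g + 2)) (Fin (2 * g + 2)) ℤ} (h : IsPen a m A B)
    (k : Type) [Field k] [Finite k] (h2 : (2 : k) ≠ 0) (hm : (m : k) ≠ 0)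
    (hs : ((po a).map (Int.castRingHom k)).Separable) :
    (numP (A.map (Int.castRingHom k)) (B.map (Int.castRingHom k)) : ℤ) =
      ∑ i ∈ range (2 * g), (Nat.card k : ℤ) ^ i + (Nat.card k : ℤ) ^ (g - 1) *
        (Nat.card {P : k × k // P.2 ^ 2 = ((po a).map (Int.castRingHom k)).eval P.1} -
          Nat.card k) := by
  classical
  let _ : Fintype k := Fintype.ofFinite k
  have hk : ringChar k ≠ 2 := by
    intro h0
    apply h2
    have := ringChar.spec k 2
    rw [h0] at this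
    exact_mod_cast this.2 dvd_rfl
  rw [Pool.Agent.H82R3.EK.card_points hk
    (fun x => ((po a).map (Int.castRingHom k)).eval x), Nat.card_eq_fintype_card, add_sub_cancel_left]
  obtain ⟨g', rfl⟩ : ∃ g', g = g' + 1 := ⟨g - 1, by omega⟩
  have h1 := numP_of_count g' _ _ _ (count' hk g' _ _ (h.symA.map (Int.castRingHom k))
    (h.symB.map (Int.castRingHom k)) (fun _ => h.h0 hm) (h.hf hm hs))
  rw [h.detk, mul_zero, MulChar.map_zero, add_zero] at h1
  refine Eq.trans h1 ?_
  have e1 : g' + 1 - 1 = g' := rfl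
  have e2 : 2 * g' + 2 = 2 * (g' + 1) := rfl
  rw [e1, e2]
  congr 2
  refine Finset.sum_congr rfl fun x _ => ?_
  have e3 := h.ev (k := k) x
  have e4 : (-1 : k) ^ (g' + 2) = (-1) ^ (g' + 1 + 1) := rfl
  rw [e4, e3, map_mul, quadraticChar_sq_one' hm, one_mul]

end Pool.Agent.N844.QF
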