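import Pool.Agent.N844.QF.Hf

/-!
The Selmer groups `Sel(J, 2 ^ m)` are zero if `J(K)` is uniquely 2-divisible and the 2-primary part of the
Tate-Shafarevich group is zero.
-/

set_option autoImplicit false
set_option linter.all false

open Polynomial IsDedekindDomain
open scoped Classical

namespace Pool.Agent.N844.QF

open Pool.Agent.Y160.SE
open Pool.Agent.TH115.GD (incl rs ak exists_restrict)
open Pool.Agent.N106.JB (ad mu ad_mapJ ACoc ACob ATriv)
open Pool.Agent.N874.Jac (J mapJ Gal Cochain TrivialOver TrivialAtPrimes TrivialAtReals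
  UniquelyTwoDivisible ShaTwoTrivial ShaTwoTrivialReal Cocycle Coboundary power)

variable {K : Type} [Field K] {F : K[X]}

theorem sel_add (h2 : (2 : K) ≠ 0) (hm : F.Monic) (hs : F.Separable) (ho : Odd F.natDegree)
    (hU : Function.Bijective fun P : Pool.Agent.Y713.Jac.J 2 F K => P ^ 2)
    (c : (SeparableClosure K ≃ₐ[K] SeparableClosure K) → Jac 2 F (SeparableClosure K))
    (m : ℕ) (h4 : ∀ σ, 2 ^ m • c σ = 0) (P : Jac 2 F (SeparableClosure K))
    (hP : ∀ σ, c σ = jm 2 F (ak σ) P - P) :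
    ∃ Q : Jac 2 F (SeparableClosure K), 2 ^ m • Q = 0 ∧ ∀ σ, c σ = jm 2 F (ak σ) Q - Q := by
  have H := hyps
  have hg := Pool.Agent.N106.JB.good2 h2 hm hs ho
  have hU2 : ∀ P : Jac 2 F K, ∃ Q : Jac 2 F K, 2 • Q = P := by
    intro P
    obtain ⟨Q, hQ⟩ := hU.2 (mu P)
    exact ⟨ad Q, hQ⟩
  have hfix : ∀ (x : Jac 2 F K) (σ : SeparableClosure K ≃ₐ[K] SeparableClosure K),
      jm 2 F (ak σ) (jm 2 F (incl K K (SeparableClosure K)) x) =
        jm 2 F (incl K K (SeparableClosure K)) x := by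
    intro x σ
    rw [jm_jm]
    congr 1
    congr 1
    exact AlgHom.ext fun y => σ.commutes y
  have hdesc : ∀ P : Jac 2 F (SeparableClosure K), (∀ σ, jm 2 F (ak σ) P = P) →
      ∃ Q : Jac 2 F K, jm 2 F (incl K K (SeparableClosure K)) Q = P := by
    intro P hP
    exact fixed_class (E := K) H hg P fun τ => by
      have e1 : (rs K τ : SeparableClosure K →ₐ[K] SeparableClosure K) = ak τ :=
        AlgHom.ext fun x => rfl
      rw [e1, hP]
  obtain ⟨Q, hQ, h6⟩ := two_pow_div (fun σ => jm 2 F (ak σ)) (fun P hP => by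
    obtain ⟨Q, rfl⟩ := hdesc P hP
    obtain ⟨R, rfl⟩ := hU2 Q
    exact ⟨jm 2 F (incl K K (SeparableClosure K)) R, hfix R, by rw [map_nsmul]⟩) m (2 ^ m • P)
    (fun σ => by
      have h5 := h4 σ
      rw [hP σ, smul_sub] at h5
      rw [map_nsmul]
      exact sub_eq_zero.1 h5)
  refine ⟨P - Q, by rw [smul_sub, h6, sub_self], fun σ => ?_⟩
  rw [map_sub, hQ σ, hP σ]
  abel

/-- `Sel(J, 2 ^ m) = 0` -/
theorem sel_zero (h2 : (2 : K) ≠ 0) (hm : F.Monic) (hs : F.Separable) (ho : Odd F.natDegree)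
    (R : Type) [CommRing R] [IsDedekindDomain R] [Algebra R K] [IsFractionRing R K]
    (hU : UniquelyTwoDivisible F) (hS : ShaTwoTrivial F R)
    (m : ℕ) (c : Cochain F) (hc : Cocycle c) (h1 : ∀ σ, c σ ^ 2 ^ m = 1)
    (hl : TrivialAtPrimes R c) :
    ∃ P : J F (SeparableClosure K), P ^ 2 ^ m = 1 ∧ ∀ σ, c σ = mapJ F σ.toAlgHom P / P := by
  obtain ⟨P, hP⟩ := hS c m hc hl ⟨1, fun σ => by
    show c σ ^ 2 ^ m = _
    rw [h1, map_one, div_one]⟩
  obtain ⟨Q, hQ1, hQ2⟩ := sel_add (F := F) h2 hm hs ho hU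
    (fun σ => (ad (c σ : Pool.Agent.Y713.Jac.J 2 F _) : Jac 2 F (SeparableClosure K))) m
    (fun σ => congrArg ad (h1 σ)) (ad (P : Pool.Agent.Y713.Jac.J 2 F _)) (fun σ => by
      refine (congrArg ad (hP σ)).trans ?_
      exact congrArg (· - ad (P : Pool.Agent.Y713.Jac.J 2 F _))
        (ad_mapJ (ak σ) (P : Pool.Agent.Y713.Jac.J 2 F _)))
  refine ⟨mu Q, ?_, fun σ => ?_⟩
  · exact Pool.Agent.N106.JB.ad_inj hQ1
  · refine Pool.Agent.N106.JB.ad_inj ?_
    refine (hQ2 σ).trans ?_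
    exact congrArg (· - Q) (ad_mapJ (ak σ) (mu Q)).symm

end Pool.Agent.N844.QF
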